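import Pool.Agent.R271.Basic

/-!
# The quantitative L-orthogonality inequality for epsilon-strong Q-measures

Measures on `P(ω)` are represented as continuous linear functionals on `ℓ_∞`.
-/

open Filter Topology Set
open scoped ENNReal

namespace Pool.Agent.Results.MP_8a0948_an.StrongQInequality

/-- The space `ℓ_∞` of bounded real sequences. -/
abbrev Linf : Type := lp (fun _ : ℕ => ℝ) ∞

open Classical in
/-- The indicator function of a set of natural numbers. -/
noncomputable def ind (A : Set ℕ) : Linf := ⟨fun n => if n ∈ A then 1 else 0, memℓp_infty ⟨1, by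
  rintro _ ⟨n, rfl⟩
  dsimp only
  split_ifs <;> simp⟩⟩

/-- `IsStrongQ ε μ`: the finitely additive measure `A ↦ μ (1_A)` takes values in `[0,1]`, vanishes
on finite sets and is an `ε`-strong `Q`-measure. -/
structure IsStrongQ (ε : ℝ) (μ : StrongDual ℝ Linf) : Prop where
  nonneg : ∀ A : Set ℕ, 0 ≤ μ (ind A)
  le_one : ∀ A : Set ℕ, μ (ind A) ≤ 1
  finite : ∀ A : Set ℕ, A.Finite → μ (ind A) = 0
  sel : ∀ A : ℕ → Set ℕ, (∀ n, (A n).Finite) → (∀ m, ∃! n, m ∈ A n) →
    ∃ S : Set ℕ, (∀ n, (S ∩ A n).Subsingleton) ∧ ε ≤ μ (ind S)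

/-- `z` is the `μ`-limit `T^{**}(μ)` of the sequence `x`, where `T : ℓ_1 → X`, `T e_n = x_n`;
here `(T^{**} μ)(f) = μ (T^* f) = μ ((f (x_n))_n)`. -/
def IsMuLim {X : Type} [NormedAddCommGroup X] [NormedSpace ℝ X] (μ : StrongDual ℝ Linf)
    (x : ℕ → X) (z : StrongDual ℝ (StrongDual ℝ X)) : Prop :=
  ∀ (f : StrongDual ℝ X) (g : Linf), (∀ n, g n = f (x n)) → z f = μ g

/-- The inequality of the problem for the measure `μ` and the number `ε`. -/
def Inequality (ε : ℝ) (μ : StrongDual ℝ Linf) : Prop :=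
  ∀ (X : Type) [NormedAddCommGroup X] [NormedSpace ℝ X] [CompleteSpace X] (x : ℕ → X),
    (∀ n, ‖x n‖ ≤ 1) → (∀ y : X, Tendsto (fun n => ‖y + x n‖) atTop (𝓝 (1 + ‖y‖))) →
    ∀ z : StrongDual ℝ (StrongDual ℝ X), IsMuLim μ x z → ∀ y : X,
      ‖y‖ + ε * ‖z‖ ≤ ‖NormedSpace.inclusionInDoubleDual ℝ X y + z‖

open Classical in
lemma ind_apply' (A : Set ℕ) (n : ℕ) : ind A n = if n ∈ A then 1 else 0 := rfl

lemma ind_apply (A : Set ℕ) [DecidablePred (· ∈ A)] (n : ℕ) :
    ind A n = if n ∈ A then 1 else 0 := by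
  rw [ind_apply']
  split_ifs <;> rfl

lemma ind_add_compl (A : Set ℕ) : ind A + ind Aᶜ = ind univ := by
  classical
  apply Subtype.ext
  funext n
  rw [lp.coeFn_add, Pi.add_apply]
  have h1 := ind_apply A n
  have h2 := ind_apply Aᶜ n
  have h3 := ind_apply univ n
  rw [h1, h2, h3]
  by_cases h : n ∈ A <;> simp [h]

/-! ### A functional concentrated on large blocks -/

/-- The blocks. -/
def blk (k : ℕ) : Finset ℕ := Finset.Ico (k ^ 2) ((k + 1) ^ 2)

lemma card_blk (k : ℕ) : (blk k).card = 2 * k + 1 := by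
  rw [blk, Nat.card_Ico]
  have : (k + 1) ^ 2 = k ^ 2 + (2 * k + 1) := by ring
  omega

/-- The averages over blocks. -/
noncomputable def av (g : ℕ → ℝ) (k : ℕ) : ℝ := (∑ n ∈ blk k, g n) / (2 * k + 1)

lemma abs_av_le {g : ℕ → ℝ} {C : ℝ} (hg : ∀ n, |g n| ≤ C) (k : ℕ) : |av g k| ≤ C := by
  rw [av, abs_div, abs_of_pos (show (0 : ℝ) < 2 * k + 1 by positivity), div_le_iff₀ (by positivity)]
  calc |∑ n ∈ blk k, g n| ≤ ∑ n ∈ blk k, |g n| := Finset.abs_sum_le_sum_abs _ _
    _ ≤ ∑ n ∈ blk k, C := Finset.sum_le_sum fun n _ => hg n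
    _ = C * (2 * k + 1) := by
      rw [Finset.sum_const, card_blk, nsmul_eq_mul]
      push_cast
      ring

lemma abs_apply_le (g : Linf) (n : ℕ) : |g n| ≤ ‖g‖ :=
  lp.norm_apply_le_norm (by simp : (∞ : ℝ≥0∞) ≠ 0) g n

lemma exists_lim (g : Linf) :
    ∃ l : ℝ, Tendsto (fun k => av g k) (hyperfilter ℕ : Filter ℕ) (𝓝 l) := by
  have hc : IsCompact (Icc (-‖g‖) ‖g‖) := isCompact_Icc
  obtain ⟨l, _, hl⟩ := hc.ultrafilter_le_nhds ((hyperfilter ℕ).map (fun k => av g k)) (by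
    rw [le_principal_iff, Ultrafilter.mem_coe, Ultrafilter.mem_map]
    apply Filter.univ_mem'
    intro k
    exact abs_le.1 (abs_av_le (abs_apply_le g) k))
  exact ⟨l, hl⟩

/-- The functional `g ↦ lim_k av g k` along an ultrafilter. -/
lemma exists_functional : ∃ Φ : StrongDual ℝ Linf, ∀ g : Linf,
    Tendsto (fun k => av g k) (hyperfilter ℕ : Filter ℕ) (𝓝 (Φ g)) := by
  choose L hL using exists_lim
  refine ⟨LinearMap.mkContinuous
    { toFun := L
      map_add' := fun a b => ?_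
      map_smul' := fun c a => ?_ } 1 (fun g => ?_), hL⟩
  · refine tendsto_nhds_unique (hL (a + b)) (((hL a).add (hL b)).congr fun k => ?_)
    rw [av, av, av, ← add_div, ← Finset.sum_add_distrib, lp.coeFn_add]
    rfl
  · refine tendsto_nhds_unique (hL (c • a)) (((hL a).const_mul c).congr fun k => ?_)
    rw [av, av, mul_div_assoc', Finset.mul_sum, lp.coeFn_smul]
    rfl
  · rw [one_mul]
    refine le_of_tendsto (hL g).norm (Eventually.of_forall fun k => ?_)
    exact abs_av_le (abs_apply_le g) k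

/-! ### The space -/

/-- The dual ball. -/
def D : Set (ℝ × (ℕ → ℝ)) :=
  {p | |p.1| ≤ 1 ∧ (∀ n, |p.2 n| ≤ 1) ∧ ∀ k, ∑ n ∈ blk k, |p.2 n + p.1| ≤ 2}

/-- Bounded functions on `D`. -/
abbrev B : Type := lp (fun _ : D => ℝ) ∞

/-- The first coordinate. -/
noncomputable def w : B := ⟨fun p => p.1.1, memℓp_infty ⟨1, by
  rintro _ ⟨p, rfl⟩
  exact p.2.1⟩⟩

/-- The other coordinates. -/
noncomputable def e (n : ℕ) : B := ⟨fun p => p.1.2 n, memℓp_infty ⟨1, by
  rintro _ ⟨p, rfl⟩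
  exact p.2.2.1 n⟩⟩

lemma w_apply (p : D) : w p = p.1.1 := rfl

lemma e_apply (n : ℕ) (p : D) : e n p = p.1.2 n := rfl

lemma B_apply_le (y : B) (p : D) : |y p| ≤ ‖y‖ :=
  lp.norm_apply_le_norm (by simp : (∞ : ℝ≥0∞) ≠ 0) y p

lemma norm_e_le (n : ℕ) : ‖e n‖ ≤ 1 :=
  lp.norm_le_of_forall_le zero_le_one fun p => p.2.2.1 n

lemma norm_w : ‖w‖ = 1 := by
  apply le_antisymm (lp.norm_le_of_forall_le zero_le_one fun p => p.2.1)
  have hmem : ((1 : ℝ), fun _ : ℕ => (-1 : ℝ)) ∈ D := by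
    refine ⟨by simp, fun n => by simp, fun k => ?_⟩
    simp
  have := B_apply_le w ⟨_, hmem⟩
  rw [w_apply] at this
  simpa using this

/-- The uncompleted space. -/
noncomputable def span0 : Submodule ℝ B := Submodule.span ℝ (insert w (Set.range e))

lemma neg_mem_D {p : ℝ × (ℕ → ℝ)} (hp : p ∈ D) : -p ∈ D := by
  refine ⟨by rw [Prod.fst_neg, abs_neg]; exact hp.1, fun n => ?_, fun k => ?_⟩
  · rw [Prod.snd_neg, Pi.neg_apply, abs_neg]; exact hp.2.1 n
  · refine le_trans (le_of_eq ?_) (hp.2.2 k)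
    refine Finset.sum_congr rfl fun n _ => ?_
    rw [Prod.snd_neg, Pi.neg_apply, Prod.fst_neg, ← neg_add, abs_neg]

lemma span0_prop {y : B} (hy : y ∈ span0) :
    (∀ p : D, y ⟨-p.1, neg_mem_D p.2⟩ = - y p) ∧
    ∃ K : ℕ, ∀ p q : D, p.1.1 = q.1.1 → (∀ m < K, p.1.2 m = q.1.2 m) → y p = y q := by
  induction hy using Submodule.span_induction with
  | mem y hy =>
    rcases hy with rfl | ⟨n, rfl⟩
    · exact ⟨fun p => rfl, 0, fun p q h _ => h⟩
    · exact ⟨fun p => rfl, n + 1, fun p q _ h => h n (Nat.lt_succ_self n)⟩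
  | zero =>
    refine ⟨fun p => ?_, 0, fun p q _ _ => ?_⟩
    · rw [lp.coeFn_zero]; simp
    · rw [lp.coeFn_zero]; rfl
  | add a b _ _ ha hb =>
    obtain ⟨ha1, K1, hK1⟩ := ha
    obtain ⟨hb1, K2, hK2⟩ := hb
    refine ⟨fun p => ?_, max K1 K2, fun p q h h' => ?_⟩
    · rw [lp.coeFn_add, Pi.add_apply, Pi.add_apply, ha1, hb1]; ring
    · rw [lp.coeFn_add, Pi.add_apply, Pi.add_apply,
        hK1 p q h fun m hm => h' m (lt_of_lt_of_le hm (le_max_left _ _)),
        hK2 p q h fun m hm => h' m (lt_of_lt_of_le hm (le_max_right _ _))]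
  | smul c a _ ha =>
    obtain ⟨ha1, K1, hK1⟩ := ha
    refine ⟨fun p => ?_, K1, fun p q h h' => ?_⟩
    · rw [lp.coeFn_smul, Pi.smul_apply, Pi.smul_apply, ha1, smul_neg]
    · rw [lp.coeFn_smul, Pi.smul_apply, Pi.smul_apply, hK1 p q h h']

lemma orth_span0 {y : B} (hy : y ∈ span0) : ∃ N : ℕ, ∀ n ≥ N, 1 + ‖y‖ ≤ ‖y + e n‖ := by
  obtain ⟨hneg, K, hK⟩ := span0_prop hy
  refine ⟨(K + 1) ^ 2, fun n hn => ?_⟩
  have key : ∀ p : D, y p + 1 ≤ ‖y + e n‖ := by
    intro p
    set k := Nat.sqrt n with hk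
    have hkn : k ^ 2 ≤ n := by rw [hk, sq]; exact Nat.sqrt_le n
    have hKk : K < k ^ 2 := by
      have h1 : K + 1 ≤ k := by
        rw [hk]; exact Nat.le_sqrt'.2 hn
      nlinarith
    let h' : ℕ → ℝ := fun m => if m < k ^ 2 then p.1.2 m else if m = n then 1 else - p.1.1
    have hmem : (p.1.1, h') ∈ D := by
      refine ⟨p.2.1, fun m => ?_, fun j => ?_⟩
      · show |if m < k ^ 2 then p.1.2 m else if m = n then 1 else - p.1.1| ≤ 1
        split_ifs
        · exact p.2.2.1 m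
        · simp
        · rw [abs_neg]; exact p.2.1
      · show ∑ m ∈ blk j, |h' m + p.1.1| ≤ 2
        rcases lt_or_ge j k with hj | hj
        · refine le_trans (le_of_eq ?_) (p.2.2.2 j)
          refine Finset.sum_congr rfl fun m hm => ?_
          have hm1 : m < k ^ 2 := by
            have h2 := (Finset.mem_Ico.1 hm).2
            exact lt_of_lt_of_le h2 (Nat.pow_le_pow_left hj 2)
          show |(if m < k ^ 2 then p.1.2 m else if m = n then 1 else - p.1.1) + p.1.1| = _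
          rw [if_pos hm1]
        · have h1 : ∀ m ∈ blk j, |h' m + p.1.1| = if m = n then |1 + p.1.1| else 0 := by
            intro m hm
            have hm1 : ¬ m < k ^ 2 := by
              have h2 := (Finset.mem_Ico.1 hm).1
              have h3 := Nat.pow_le_pow_left hj 2
              omega
            show |(if m < k ^ 2 then p.1.2 m else if m = n then 1 else - p.1.1) + p.1.1| = _
            rw [if_neg hm1]
            split_ifs
            · rfl
            · simp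
          rw [Finset.sum_congr rfl h1, Finset.sum_ite_eq']
          have h2 := abs_le.1 p.2.1
          split_ifs
          · rw [abs_le]; constructor <;> linarith
          · norm_num
    have h1 := B_apply_le (y + e n) ⟨_, hmem⟩
    rw [lp.coeFn_add, Pi.add_apply, e_apply] at h1
    have h2 : h' n = 1 := by
      show (if n < k ^ 2 then p.1.2 n else if n = n then 1 else - p.1.1) = 1
      rw [if_neg (not_lt.2 hkn), if_pos rfl]
    have h3 : y ⟨_, hmem⟩ = y p := by
      refine hK _ _ rfl fun m hm => ?_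
      show (if m < k ^ 2 then p.1.2 m else if m = n then 1 else - p.1.1) = p.1.2 m
      rw [if_pos (by omega)]
    rw [h3] at h1
    have h4 : (⟨(p.1.1, h'), hmem⟩ : D).1.2 n = 1 := h2
    rw [h4] at h1
    exact (le_abs_self _).trans h1
  have h0 : (0 : ℝ × (ℕ → ℝ)) ∈ D := by
    refine ⟨by simp, fun n => by simp, fun k => by simp⟩
  have hy0 : y ⟨0, h0⟩ = 0 := by
    have h1 := hneg ⟨0, h0⟩
    have h2 : (⟨-0, neg_mem_D h0⟩ : D) = ⟨0, h0⟩ := Subtype.ext neg_zero
    have h3 : y ⟨-0, neg_mem_D h0⟩ = - y ⟨0, h0⟩ := h1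
    rw [h2] at h3
    linarith
  have h1 : 0 ≤ ‖y + e n‖ - 1 := by
    have := key ⟨0, h0⟩
    rw [hy0] at this
    linarith
  have h2 : ‖y‖ ≤ ‖y + e n‖ - 1 := by
    apply lp.norm_le_of_forall_le h1
    intro p
    rw [Real.norm_eq_abs, abs_le]
    have h3 := key p
    have h4 := key ⟨-p.1, neg_mem_D p.2⟩
    rw [hneg] at h4
    constructor <;> linarith
  linarith

/-- The space `X`. -/
noncomputable def XSub : Submodule ℝ B := span0.topologicalClosure

lemma w_mem : w ∈ XSub :=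
  span0.le_topologicalClosure (Submodule.subset_span (Set.mem_insert _ _))

lemma e_mem (n : ℕ) : e n ∈ XSub :=
  span0.le_topologicalClosure (Submodule.subset_span (Set.mem_insert_of_mem _ ⟨n, rfl⟩))

lemma orth_XSub {y : B} (hy : y ∈ XSub) :
    Tendsto (fun n => ‖y + e n‖) atTop (𝓝 (1 + ‖y‖)) := by
  rw [Metric.tendsto_atTop]
  intro δ hδ
  have hy' : y ∈ closure (span0 : Set B) := hy
  rw [Metric.mem_closure_iff] at hy'
  obtain ⟨y', hy'1, hy'2⟩ := hy' (δ / 2) (by positivity)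
  obtain ⟨N, hN⟩ := orth_span0 hy'1
  refine ⟨N, fun n hn => ?_⟩
  have h1 := hN n hn
  rw [dist_eq_norm] at hy'2
  have h2 : ‖y‖ ≤ ‖y'‖ + ‖y - y'‖ := by
    have := norm_add_le y' (y - y')
    rwa [add_sub_cancel] at this
  have h3 : ‖y' + e n‖ ≤ ‖y + e n‖ + ‖y - y'‖ := by
    have h4 : y' + e n = (y + e n) - (y - y') := by abel
    rw [h4]
    exact norm_sub_le _ _
  have h5 : ‖y + e n‖ ≤ ‖y‖ + 1 := (norm_add_le _ _).trans (by linarith [norm_e_le n])
  rw [Real.dist_eq, abs_lt]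
  constructor <;> linarith

/-- The space `X`. -/
def XX : Type := XSub

noncomputable instance : NormedAddCommGroup XX := inferInstanceAs (NormedAddCommGroup XSub)

noncomputable instance : NormedSpace ℝ XX := inferInstanceAs (NormedSpace ℝ XSub)

instance : CompleteSpace XX := (Submodule.isClosed_topologicalClosure span0).completeSpace_coe

/-- `w` as an element of `X`. -/
noncomputable def wX : XX := (⟨w, w_mem⟩ : XSub)

/-- The `L`-orthogonal sequence. -/
noncomputable def eX (n : ℕ) : XX := (⟨e n, e_mem n⟩ : XSub)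

lemma norm_wX : ‖wX‖ = 1 := norm_w

lemma norm_eX_le (n : ℕ) : ‖eX n‖ ≤ 1 := norm_e_le n

lemma orth_XX (y : XX) : Tendsto (fun n => ‖y + eX n‖) atTop (𝓝 (1 + ‖y‖)) :=
  orth_XSub (y := (show XSub from y).1) (show XSub from y).2

lemma sum_le (f : StrongDual ℝ XX) (k : ℕ) : ∑ n ∈ blk k, |f (eX n) + f wX| ≤ 2 * ‖f‖ := by
  have h1 : ∀ t : ℝ, ∃ σ : ℝ, |σ| ≤ 1 ∧ σ * t = |t| := by
    intro t
    rcases le_total 0 t with h | h
    · exact ⟨1, by simp, by rw [one_mul, abs_of_nonneg h]⟩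
    · exact ⟨-1, by simp, by rw [abs_of_nonpos h]; ring⟩
  choose σ hσ1 hσ2 using h1
  set s : ℕ → ℝ := fun n => σ (f (eX n) + f wX) with hs
  set v : XX := ∑ n ∈ blk k, s n • (eX n + wX) with hv
  have h2 : ∑ n ∈ blk k, |f (eX n) + f wX| = f v := by
    rw [hv, map_sum]
    refine Finset.sum_congr rfl fun n _ => ?_
    rw [map_smul, map_add, smul_eq_mul]
    exact (hσ2 _).symm
  have h3 : ‖v‖ ≤ 2 := by
    have h4 : ((show XSub from v) : B) = ∑ n ∈ blk k, s n • (e n + w) := by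
      have h5 : (show XSub from v) = ∑ n ∈ blk k, s n • ((⟨e n, e_mem n⟩ : XSub) + ⟨w, w_mem⟩) :=
        rfl
      rw [h5, Submodule.coe_sum]
      rfl
    have h5 : ‖v‖ = ‖((show XSub from v) : B)‖ := rfl
    rw [h5, h4]
    apply lp.norm_le_of_forall_le (by norm_num)
    intro p
    have h6 : (∑ n ∈ blk k, s n • (e n + w) : B) p = ∑ n ∈ blk k, s n * (p.1.2 n + p.1.1) := by
      rw [lp.coeFn_sum, Finset.sum_apply]
      refine Finset.sum_congr rfl fun n _ => ?_
      rw [lp.coeFn_smul, Pi.smul_apply, lp.coeFn_add, Pi.add_apply, e_apply, w_apply, smul_eq_mul]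
    rw [h6, Real.norm_eq_abs]
    refine (Finset.abs_sum_le_sum_abs _ _).trans (le_trans (Finset.sum_le_sum fun n _ => ?_)
      (p.2.2.2 k))
    rw [abs_mul]
    exact mul_le_of_le_one_left (abs_nonneg _) (hσ1 _)
  rw [h2]
  calc f v ≤ |f v| := le_abs_self _
    _ ≤ ‖f‖ * ‖v‖ := f.le_opNorm v
    _ ≤ ‖f‖ * 2 := mul_le_mul_of_nonneg_left h3 (norm_nonneg f)
    _ = 2 * ‖f‖ := mul_comm _ _

/-- For a functional of the kind above the limit of `(eX n)` is `-wX`. -/
lemma lim_eq {Φ : StrongDual ℝ Linf}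
    (hΦ : ∀ g : Linf, Tendsto (fun k => av g k) (hyperfilter ℕ : Filter ℕ) (𝓝 (Φ g)))
    (f : StrongDual ℝ XX) (g : Linf) (hg : ∀ n, g n = f (eX n)) : Φ g = - f wX := by
  refine tendsto_nhds_unique (hΦ g) ?_
  have h1 : Tendsto (fun k : ℕ => av g k) atTop (𝓝 (- f wX)) := by
    rw [tendsto_iff_norm_sub_tendsto_zero]
    have h2 : Tendsto (fun k : ℕ => 2 * ‖f‖ * (1 / ((k : ℝ) + 1))) atTop (𝓝 0) := by
      simpa using tendsto_one_div_add_atTop_nhds_zero_nat.const_mul (2 * ‖f‖)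
    refine squeeze_zero (fun k => norm_nonneg _) (fun k => ?_) h2
    have h3 : av g k - - f wX = (∑ n ∈ blk k, (f (eX n) + f wX)) / (2 * k + 1) := by
      rw [av, Finset.sum_add_distrib, Finset.sum_const, card_blk, nsmul_eq_mul, sub_neg_eq_add]
      rw [Finset.sum_congr rfl fun n _ => hg n]
      have : (2 * (k : ℝ) + 1) ≠ 0 := by positivity
      push_cast
      field_simp
    rw [h3, Real.norm_eq_abs, abs_div, abs_of_pos (show (0 : ℝ) < 2 * k + 1 by positivity)]
    have h4 : |∑ n ∈ blk k, (f (eX n) + f wX)| ≤ 2 * ‖f‖ :=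
      (Finset.abs_sum_le_sum_abs _ _).trans (sum_le f k)
    rw [mul_one_div]
    have h5 : 0 ≤ 2 * ‖f‖ := by
      have := norm_nonneg f
      linarith
    exact div_le_div₀ h5 h4 (by positivity) (by linarith [(Nat.cast_nonneg k : (0 : ℝ) ≤ k)])
  exact h1.mono_left (by rw [← Nat.cofinite_eq_atTop]; exact hyperfilter_le_cofinite)

/-! ### The counterexample -/

lemma exists_mulim {X : Type} [NormedAddCommGroup X] [NormedSpace ℝ X] (x : ℕ → X)
    (hx : ∀ n, ‖x n‖ ≤ 1) (μ : StrongDual ℝ Linf) :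
    ∃ z : StrongDual ℝ (StrongDual ℝ X), ‖z‖ ≤ ‖μ‖ ∧ IsMuLim μ x z := by
  have hb : ∀ (f : StrongDual ℝ X) (n : ℕ), |f (x n)| ≤ ‖f‖ := by
    intro f n
    have h1 := f.le_opNorm (x n)
    have h2 : ‖f‖ * ‖x n‖ ≤ ‖f‖ * 1 := mul_le_mul_of_nonneg_left (hx n) (norm_nonneg f)
    rw [mul_one] at h2
    exact h1.trans h2
  let R : StrongDual ℝ X →L[ℝ] Linf := LinearMap.mkContinuous
    { toFun := fun f => ⟨fun n => f (x n), memℓp_infty ⟨‖f‖, by
        rintro _ ⟨n, rfl⟩
        exact hb f n⟩⟩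
      map_add' := fun a b => rfl
      map_smul' := fun c a => rfl } 1 (fun f => by
        rw [one_mul]
        apply lp.norm_le_of_forall_le (norm_nonneg f)
        exact hb f)
  have hR : ‖R‖ ≤ 1 := LinearMap.mkContinuous_norm_le _ zero_le_one _
  refine ⟨μ.comp R, ?_, ?_⟩
  · refine (ContinuousLinearMap.opNorm_comp_le μ R).trans ?_
    calc ‖μ‖ * ‖R‖ ≤ ‖μ‖ * 1 := mul_le_mul_of_nonneg_left hR (norm_nonneg μ)
      _ = ‖μ‖ := mul_one _
  · intro f g hg
    show μ (R f) = μ g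
    congr 1
    apply Subtype.ext
    funext n
    exact (hg n).symm

lemma generic {X : Type} [NormedAddCommGroup X] [NormedSpace ℝ X] [CompleteSpace X] (x : ℕ → X)
    (hx : ∀ n, ‖x n‖ ≤ 1) (horth : ∀ y : X, Tendsto (fun n => ‖y + x n‖) atTop (𝓝 (1 + ‖y‖)))
    (v : X) (hv : ‖v‖ = 1) (μ Φ : StrongDual ℝ Linf)
    (hΦ : ∀ (f : StrongDual ℝ X) (g : Linf), (∀ n, g n = f (x n)) → Φ g = - f v)
    (c M ε : ℝ) (hc : 0 < c) (hM : ‖μ‖ < M) (hε : 0 ≤ ε) :
    ¬ Inequality ε (c • (μ + M • Φ)) := by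
  intro h
  obtain ⟨z, hz1, hz2⟩ := exists_mulim x hx μ
  have hM0 : 0 < M := lt_of_le_of_lt (norm_nonneg μ) hM
  set j : StrongDual ℝ (StrongDual ℝ X) := NormedSpace.inclusionInDoubleDual ℝ X v with hj
  set z' : StrongDual ℝ (StrongDual ℝ X) := c • (z - M • j) with hz'
  have h1 : IsMuLim (c • (μ + M • Φ)) x z' := by
    intro f g hg
    show c * (z f - M * f v) = c * (μ g + M * Φ g)
    rw [hz2 f g hg, hΦ f g hg]
    ring
  have h2 := h X x hx horth z' h1 ((c * M) • v)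
  have h3 : NormedSpace.inclusionInDoubleDual ℝ X ((c * M) • v) + z' = c • z := by
    ext f
    show f ((c * M) • v) + c * (z f - M * f v) = c * z f
    rw [map_smul, smul_eq_mul]
    ring
  rw [h3, norm_smul, hv, mul_one, Real.norm_of_nonneg (by positivity)] at h2
  have h4 : ‖c • z‖ ≤ c * ‖μ‖ := by
    apply ContinuousLinearMap.opNorm_le_bound _ (by positivity)
    intro f
    show ‖c * z f‖ ≤ _
    rw [norm_mul, Real.norm_of_nonneg hc.le, mul_assoc]
    apply mul_le_mul_of_nonneg_left _ hc.le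
    refine (z.le_opNorm f).trans ?_
    exact mul_le_mul_of_nonneg_right hz1 (norm_nonneg f)
  have h5 : c * ‖μ‖ < c * M := mul_lt_mul_of_pos_left hM hc
  have h6 : 0 ≤ ε * ‖z'‖ := mul_nonneg hε (norm_nonneg z')
  linarith

/-- Every `ε`-strong `Q`-measure produces an `ε'`-strong `Q`-measure of total mass one for which
the inequality fails. -/
lemma fails {ε : ℝ} (hε : 0 < ε) {μ : StrongDual ℝ Linf} (hμ : IsStrongQ ε μ) :
    ∃ ε' : ℝ, 0 < ε' ∧ ∃ μ' : StrongDual ℝ Linf, IsStrongQ ε' μ' ∧ μ' (ind univ) = 1 ∧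
      ¬ Inequality ε' μ' := by
  classical
  obtain ⟨Φ, hΦ⟩ := exists_functional
  have hΦ0 : ∀ A, 0 ≤ Φ (ind A) := fun A => by
    refine ge_of_tendsto (hΦ (ind A)) (Eventually.of_forall fun k => ?_)
    rw [av]
    refine div_nonneg (Finset.sum_nonneg fun n _ => ?_) (by positivity)
    rw [ind_apply]
    split_ifs <;> norm_num
  have hΦ1 : Φ (ind univ) = 1 := by
    refine tendsto_nhds_unique (hΦ (ind univ)) (tendsto_const_nhds.congr fun k => ?_)
    rw [av]
    have h1 : ∀ n ∈ blk k, ind univ n = 1 := fun n _ => by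
      rw [ind_apply]; simp
    rw [Finset.sum_congr rfl h1, Finset.sum_const, card_blk, nsmul_eq_mul, mul_one]
    push_cast
    exact (div_self (by positivity)).symm
  have hΦf : ∀ A : Set ℕ, A.Finite → Φ (ind A) = 0 := by
    intro A hA
    refine tendsto_nhds_unique (hΦ (ind A)) ?_
    have h1 : Tendsto (fun k : ℕ => av (ind A) k) atTop (𝓝 0) := by
      refine tendsto_const_nhds.congr' ?_
      obtain ⟨N, hN⟩ := hA.bddAbove
      filter_upwards [eventually_gt_atTop N] with k hk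
      rw [av]
      have h1 : ∀ n ∈ blk k, ind A n = 0 := fun n hn => by
        rw [ind_apply, if_neg]
        intro hnA
        have h2 := hN hnA
        have h3 := (Finset.mem_Ico.1 hn).1
        nlinarith
      rw [Finset.sum_congr rfl h1, Finset.sum_const_zero, zero_div]
    exact h1.mono_left (by rw [← Nat.cofinite_eq_atTop]; exact hyperfilter_le_cofinite)
  have hle : ∀ (Ψ : StrongDual ℝ Linf), (∀ A, 0 ≤ Ψ (ind A)) → ∀ A, Ψ (ind A) ≤ Ψ (ind univ) := by
    intro Ψ h A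
    rw [← ind_add_compl A, map_add]
    linarith [h Aᶜ]
  set M : ℝ := ‖μ‖ + 1 with hM
  have hM0 : 0 < M := by
    have := norm_nonneg μ
    linarith
  have ha := hμ.nonneg univ
  set c : ℝ := (μ (ind univ) + M)⁻¹ with hc
  have hc0 : 0 < c := by positivity
  have hval : ∀ g, (c • (μ + M • Φ)) g = c * (μ g + M * Φ g) := fun g => rfl
  refine ⟨c * ε, by positivity, c • (μ + M • Φ), ⟨fun A => ?_, fun A => ?_, fun A hA => ?_,
    fun A hA hA' => ?_⟩, ?_, ?_⟩
  · rw [hval]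
    have h1 := hμ.nonneg A
    have h2 := hΦ0 A
    positivity
  · rw [hval]
    have h1 := hle μ hμ.nonneg A
    have h2 := hle Φ hΦ0 A
    rw [hΦ1] at h2
    have h3 : μ (ind A) + M * Φ (ind A) ≤ μ (ind univ) + M := by
      have := mul_le_mul_of_nonneg_left h2 hM0.le
      linarith
    calc c * (μ (ind A) + M * Φ (ind A)) ≤ c * (μ (ind univ) + M) :=
          mul_le_mul_of_nonneg_left h3 hc0.le
      _ = 1 := inv_mul_cancel₀ (by positivity)
  · rw [hval, hμ.finite A hA, hΦf A hA]; simp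
  · obtain ⟨S, hS, hS'⟩ := hμ.sel A hA hA'
    refine ⟨S, hS, ?_⟩
    rw [hval]
    apply mul_le_mul_of_nonneg_left _ hc0.le
    have := mul_nonneg hM0.le (hΦ0 S)
    linarith
  · rw [hval, hΦ1, mul_one]
    exact inv_mul_cancel₀ (by positivity)
  · exact generic eX norm_eX_le orth_XX wX norm_wX μ Φ (lim_eq hΦ) c M (c * ε) hc0
      (by rw [hM]; linarith) (by positivity)

/-- The inequality of the problem holds for all `ε > 0` and all `ε`-strong `Q`-measures only
when it is void, that is, if and only if there are no `ε`-strong `Q`-measures at all. More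
precisely, every `ε`-strong `Q`-measure gives rise to an `ε'`-strong `Q`-measure of total mass one
(for some `ε' > 0`) for which the inequality fails. -/
theorem result :
    ((∀ ε : ℝ, 0 < ε → ∀ μ : StrongDual ℝ Linf, IsStrongQ ε μ → Inequality ε μ) ↔
      ¬ ∃ (ε : ℝ) (μ : StrongDual ℝ Linf), 0 < ε ∧ IsStrongQ ε μ) ∧
    ∀ (ε : ℝ) (μ : StrongDual ℝ Linf), 0 < ε → IsStrongQ ε μ →
      ∃ (ε' : ℝ) (μ' : StrongDual ℝ Linf), 0 < ε' ∧ IsStrongQ ε' μ' ∧ μ' (ind univ) = 1 ∧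
        ¬ Inequality ε' μ' := by
  refine ⟨⟨?_, ?_⟩, ?_⟩
  · rintro h ⟨ε, μ, hε, hμ⟩
    obtain ⟨ε', hε', μ', hμ', _, hfail⟩ := fails hε hμ
    exact hfail (h ε' hε' μ' hμ')
  · intro h ε hε μ hμ
    exact absurd ⟨ε, μ, hε, hμ⟩ h
  · intro ε μ hε hμ
    obtain ⟨ε', hε', μ', hμ', h1, hfail⟩ := fails hε hμ
    exact ⟨ε', μ', hε', hμ', h1, hfail⟩

end Pool.Agent.Results.MP_8a0948_an.StrongQInequality
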